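import Mathlib
import Pool.Graph.R_seed8.H398R2.RK.Smooth

/-!
Integers all of whose prime factors lie in `(z, v]`: Rankin's trick without loss of a logarithm.
-/

set_option autoImplicit false

namespace Pool.Agent.H76.TT

open Finset Pool.Agent.H318R2.Cr Pool.Agent.H398R2.RK ArithmeticFunction

open scoped Classical

/-- All prime factors of `n` lie in `(z, v]`. -/
def Adm (z v n : ℕ) : Prop := ∀ p : ℕ, p.Prime → p ∣ n → z < p ∧ p ≤ v

theorem Adm.of_dvd {z v m n : ℕ} (h : Adm z v n) (hd : m ∣ n) : Adm z v m :=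
  fun p hp hpm => h p hp (hpm.trans hd)

theorem wsum : ∃ C : ℝ, 0 < C ∧ ∀ (η : ℝ) (v t : ℕ), 0 ≤ η → η ≤ 1 / 4 → 1 ≤ v → 1 ≤ t →
    ∑ d ∈ (Icc 1 t).filter (fun d => ∀ p : ℕ, p.Prime → p ∣ d → p ≤ v),
      vonMangoldt d * (d : ℝ) ^ η ≤ C * (v : ℝ) ^ η * t := by
  obtain ⟨C0, hC0⟩ := Chebyshev.psi_sub_theta_le_mul_sqrt
  refine ⟨Real.log 4 + |C0| + 1, by positivity, fun η v t hη0 hη1 hv ht => ?_⟩
  have hv1 : (1 : ℝ) ≤ v := by exact_mod_cast hv
  have ht1 : (1 : ℝ) ≤ t := by exact_mod_cast ht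
  have hvη : 1 ≤ (v : ℝ) ^ η := Real.one_le_rpow hv1 hη0
  set A := (Icc 1 t).filter (fun d => ∀ p : ℕ, p.Prime → p ∣ d → p ≤ v) with hA
  have hsplit : ∑ d ∈ A, vonMangoldt d * (d : ℝ) ^ η =
      ∑ d ∈ A.filter Nat.Prime, vonMangoldt d * (d : ℝ) ^ η +
      ∑ d ∈ A.filter (fun d => ¬ d.Prime), vonMangoldt d * (d : ℝ) ^ η :=
    (sum_filter_add_sum_filter_not A Nat.Prime _).symm
  have h1 : ∑ d ∈ A.filter Nat.Prime, vonMangoldt d * (d : ℝ) ^ η ≤
      (v : ℝ) ^ η * (Real.log 4 * t) := by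
    have h2 : ∑ d ∈ A.filter Nat.Prime, vonMangoldt d * (d : ℝ) ^ η ≤
        ∑ d ∈ A.filter Nat.Prime, (v : ℝ) ^ η * Real.log d := by
      apply sum_le_sum
      intro d hd
      rw [mem_filter, hA, mem_filter] at hd
      rw [vonMangoldt_apply_prime hd.2, mul_comm]
      apply mul_le_mul_of_nonneg_right _ (Real.log_natCast_nonneg d)
      apply Real.rpow_le_rpow (by positivity) _ hη0
      exact_mod_cast hd.1.2 d hd.2 dvd_rfl
    refine h2.trans ?_
    rw [← mul_sum]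
    apply mul_le_mul_of_nonneg_left _ (by positivity)
    have h3 := Chebyshev.theta_le_log4_mul_x (x := (t : ℝ)) (by positivity)
    refine le_trans ?_ h3
    rw [Chebyshev.theta, Nat.floor_natCast]
    apply sum_le_sum_of_subset_of_nonneg
    · intro d hd
      rw [mem_filter, hA, mem_filter, mem_Icc] at hd
      rw [mem_filter, mem_Ioc]
      exact ⟨⟨by omega, hd.1.1.2⟩, hd.2⟩
    · intro i _ _
      exact Real.log_natCast_nonneg i
  have h4 : ∑ d ∈ A.filter (fun d => ¬ d.Prime), vonMangoldt d * (d : ℝ) ^ η ≤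
      (t : ℝ) ^ (1 / 4 : ℝ) * (|C0| * Real.sqrt t) := by
    have h5 : ∑ d ∈ A.filter (fun d => ¬ d.Prime), vonMangoldt d * (d : ℝ) ^ η ≤
        ∑ d ∈ A.filter (fun d => ¬ d.Prime), (t : ℝ) ^ (1 / 4 : ℝ) * vonMangoldt d := by
      apply sum_le_sum
      intro d hd
      rw [mem_filter, hA, mem_filter, mem_Icc] at hd
      rw [mul_comm]
      apply mul_le_mul_of_nonneg_right _ vonMangoldt_nonneg
      have hd1 : (1 : ℝ) ≤ d := by exact_mod_cast hd.1.1.1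
      have hdt : (d : ℝ) ≤ t := by exact_mod_cast hd.1.1.2
      calc (d : ℝ) ^ η ≤ (d : ℝ) ^ (1 / 4 : ℝ) := Real.rpow_le_rpow_of_exponent_le hd1 hη1
        _ ≤ _ := Real.rpow_le_rpow (by positivity) hdt (by norm_num)
    refine h5.trans ?_
    rw [← mul_sum]
    apply mul_le_mul_of_nonneg_left _ (by positivity)
    have h6 := hC0 (t : ℝ)
    rw [Chebyshev.psi_sub_theta_eq_sum_not_prime, Nat.floor_natCast] at h6
    have h7 : C0 * Real.sqrt t ≤ |C0| * Real.sqrt t :=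
      mul_le_mul_of_nonneg_right (le_abs_self _) (Real.sqrt_nonneg _)
    refine le_trans ?_ (h6.trans h7)
    apply sum_le_sum_of_subset_of_nonneg
    · intro d hd
      rw [mem_filter, hA, mem_filter, mem_Icc] at hd
      rw [mem_filter, mem_Ioc]
      exact ⟨⟨by omega, hd.1.1.2⟩, hd.2⟩
    · intro i _ _
      exact vonMangoldt_nonneg
  have h8 : (t : ℝ) ^ (1 / 4 : ℝ) * Real.sqrt t ≤ t := by
    rw [Real.sqrt_eq_rpow, ← Real.rpow_add (by linarith)]
    calc (t : ℝ) ^ (1 / 4 + 1 / 2 : ℝ) ≤ (t : ℝ) ^ (1 : ℝ) :=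
          Real.rpow_le_rpow_of_exponent_le ht1 (by norm_num)
      _ = t := Real.rpow_one _
  rw [hsplit]
  have h9 : (t : ℝ) ^ (1 / 4 : ℝ) * (|C0| * Real.sqrt t) ≤ |C0| * t := by
    calc (t : ℝ) ^ (1 / 4 : ℝ) * (|C0| * Real.sqrt t) =
          |C0| * ((t : ℝ) ^ (1 / 4 : ℝ) * Real.sqrt t) := by ring
      _ ≤ _ := mul_le_mul_of_nonneg_left h8 (abs_nonneg _)
  have h10 : |C0| * t ≤ |C0| * t * (v : ℝ) ^ η := le_mul_of_one_le_right (by positivity) hvη
  have h11 : 0 ≤ (v : ℝ) ^ η * t := by positivity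
  nlinarith

theorem log_weight : ∃ C : ℝ, 0 < C ∧ ∀ (η : ℝ) (z v N : ℕ), 0 ≤ η → η ≤ 1 / 4 → 1 ≤ v → 1 ≤ N →
    (∑ n ∈ (Icc 1 N).filter (Adm z v), (n : ℝ) ^ η) * Real.log N ≤
      C * (v : ℝ) ^ η * N * ∑ n ∈ (Icc 1 N).filter (Adm z v), (n : ℝ) ^ (-(1 - η)) := by
  obtain ⟨C, hC, hw⟩ := wsum
  refine ⟨C + 1, by positivity, fun η z v N hη0 hη1 hv hN => ?_⟩
  have hv1 : (1 : ℝ) ≤ v := by exact_mod_cast hv
  have hN1 : (1 : ℝ) ≤ N := by exact_mod_cast hN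
  have hvη : 1 ≤ (v : ℝ) ^ η := Real.one_le_rpow hv1 hη0
  set A := (Icc 1 N).filter (Adm z v) with hA
  have hAm : ∀ n, n ∈ A ↔ (1 ≤ n ∧ n ≤ N) ∧ Adm z v n := by
    intro n; rw [hA, mem_filter, mem_Icc]
  -- log N = log n + log (N / n)
  have h1 : (∑ n ∈ A, (n : ℝ) ^ η) * Real.log N =
      ∑ n ∈ A, (n : ℝ) ^ η * Real.log n + ∑ n ∈ A, (n : ℝ) ^ η * Real.log (N / n) := by
    rw [sum_mul, ← sum_add_distrib]
    apply sum_congr rfl
    intro n hn
    have hn1 : (0 : ℝ) < n := by exact_mod_cast ((hAm n).1 hn).1.1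
    rw [Real.log_div (by positivity) (by positivity)]
    ring
  have hneg : ∀ n : ℕ, 1 ≤ n → (n : ℝ) ^ (-(1 - η)) = (n : ℝ) ^ η / n := by
    intro n hn
    have hn1 : (0 : ℝ) < n := by exact_mod_cast hn
    rw [show -(1 - η) = η - 1 by ring, Real.rpow_sub hn1, Real.rpow_one]
  have h2 : ∑ n ∈ A, (n : ℝ) ^ η * Real.log (N / n) ≤
      N * ∑ n ∈ A, (n : ℝ) ^ (-(1 - η)) := by
    rw [mul_sum]
    apply sum_le_sum
    intro n hn
    have hn1 : (0 : ℝ) < n := by exact_mod_cast ((hAm n).1 hn).1.1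
    rw [hneg n ((hAm n).1 hn).1.1]
    have h3 : Real.log (N / n) ≤ N / n := Real.log_le_self (by positivity)
    calc (n : ℝ) ^ η * Real.log (N / n) ≤ (n : ℝ) ^ η * (N / n) := by gcongr
      _ = _ := by ring
  have h3 : ∑ n ∈ A, (n : ℝ) ^ η * Real.log n ≤
      ∑ m ∈ A, (m : ℝ) ^ η * ∑ d ∈ (Icc 1 (N / m)).filter
        (fun d => ∀ p : ℕ, p.Prime → p ∣ d → p ≤ v), vonMangoldt d * (d : ℝ) ^ η := by
    have e1 : ∑ n ∈ A, (n : ℝ) ^ η * Real.log n =
        ∑ n ∈ A, ∑ d ∈ n.divisors, vonMangoldt d * (d : ℝ) ^ η * ((n / d : ℕ) : ℝ) ^ η := by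
      apply sum_congr rfl
      intro n hn
      rw [← vonMangoldt_sum, mul_sum]
      apply sum_congr rfl
      intro d hd
      have hdn := Nat.dvd_of_mem_divisors hd
      have e2 : (n : ℝ) = d * ((n / d : ℕ) : ℝ) := by
        rw [← Nat.cast_mul, Nat.mul_div_cancel' hdn]
      have e3 : (n : ℝ) ^ η = (d : ℝ) ^ η * ((n / d : ℕ) : ℝ) ^ η := by
        conv_lhs => rw [e2]
        exact Real.mul_rpow (by positivity) (by positivity)
      rw [e3]; ring
    have e4 : ∑ m ∈ A, (m : ℝ) ^ η * ∑ d ∈ (Icc 1 (N / m)).filter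
        (fun d => ∀ p : ℕ, p.Prime → p ∣ d → p ≤ v), vonMangoldt d * (d : ℝ) ^ η =
        ∑ m ∈ A, ∑ d ∈ (Icc 1 (N / m)).filter
        (fun d => ∀ p : ℕ, p.Prime → p ∣ d → p ≤ v),
          vonMangoldt d * (d : ℝ) ^ η * (m : ℝ) ^ η := by
      apply sum_congr rfl
      intro m _
      rw [mul_sum]
      apply sum_congr rfl
      intro d _
      ring
    rw [e1, e4, sum_sigma', sum_sigma']
    set T := A.sigma fun n => n.divisors with hT
    set U := A.sigma fun m => (Icc 1 (N / m)).filter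
        (fun d => ∀ p : ℕ, p.Prime → p ∣ d → p ≤ v) with hU
    have hinj : Set.InjOn (fun x : (_ : ℕ) × ℕ => (⟨x.1 / x.2, x.2⟩ : (_ : ℕ) × ℕ)) T := by
      rintro ⟨n, d⟩ hx ⟨n', d'⟩ hx' hxy
      rw [mem_coe, hT, mem_sigma] at hx hx'
      simp only [Sigma.mk.injEq, heq_eq_eq] at hxy
      obtain ⟨h5, h6⟩ := hxy
      subst h6
      have h7 := Nat.dvd_of_mem_divisors hx.2
      have h8 := Nat.dvd_of_mem_divisors hx'.2
      have h7' : d ∣ n := h7
      have h8' : d ∣ n' := h8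
      have h9 : n = n' := by
        rw [← Nat.mul_div_cancel' h7', ← Nat.mul_div_cancel' h8', h5]
      rw [h9]
    have hsub : T.image (fun x : (_ : ℕ) × ℕ => (⟨x.1 / x.2, x.2⟩ : (_ : ℕ) × ℕ)) ⊆ U := by
      intro y hy
      rw [mem_image] at hy
      obtain ⟨⟨n, d⟩, hx, rfl⟩ := hy
      rw [hT, mem_sigma] at hx
      obtain ⟨hx1, hx2⟩ := hx
      simp only at hx1 hx2 ⊢
      have hdn := Nat.dvd_of_mem_divisors hx2
      have hn := (hAm n).1 hx1
      have hd0 : 0 < d := Nat.pos_of_dvd_of_pos hdn hn.1.1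
      have hnd : 0 < n / d := Nat.div_pos (Nat.le_of_dvd hn.1.1 hdn) hd0
      rw [hU, mem_sigma]
      refine ⟨(hAm _).2 ⟨⟨hnd, (Nat.div_le_self _ _).trans hn.1.2⟩,
        hn.2.of_dvd (Nat.div_dvd_of_dvd hdn)⟩, ?_⟩
      simp only
      rw [mem_filter, mem_Icc]
      refine ⟨⟨hd0, ?_⟩, fun p hp hpd => (hn.2 p hp (hpd.trans hdn)).2⟩
      rw [Nat.le_div_iff_mul_le hnd, Nat.mul_div_cancel' hdn]
      exact hn.1.2
    calc ∑ x ∈ T, vonMangoldt x.2 * (x.2 : ℝ) ^ η * ((x.1 / x.2 : ℕ) : ℝ) ^ η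
        = ∑ x ∈ T.image (fun x : (_ : ℕ) × ℕ => (⟨x.1 / x.2, x.2⟩ : (_ : ℕ) × ℕ)),
            vonMangoldt x.2 * (x.2 : ℝ) ^ η * (x.1 : ℝ) ^ η := by
          rw [sum_image hinj]
      _ ≤ _ := by
          apply sum_le_sum_of_subset_of_nonneg hsub
          intro i _ _
          have := vonMangoldt_nonneg (n := i.2)
          positivity
  have h4 : ∑ m ∈ A, (m : ℝ) ^ η * ∑ d ∈ (Icc 1 (N / m)).filter
        (fun d => ∀ p : ℕ, p.Prime → p ∣ d → p ≤ v), vonMangoldt d * (d : ℝ) ^ η ≤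
      C * (v : ℝ) ^ η * N * ∑ n ∈ A, (n : ℝ) ^ (-(1 - η)) := by
    rw [mul_sum]
    apply sum_le_sum
    intro m hm
    have hm' := (hAm m).1 hm
    have hm1 : (0 : ℝ) < m := by exact_mod_cast hm'.1.1
    have h5 := hw η v (N / m) hη0 hη1 hv (Nat.div_pos hm'.1.2 hm'.1.1)
    have h6 : ((N / m : ℕ) : ℝ) ≤ N / m := Nat.cast_div_le
    rw [hneg m hm'.1.1]
    calc (m : ℝ) ^ η * ∑ d ∈ (Icc 1 (N / m)).filter
          (fun d => ∀ p : ℕ, p.Prime → p ∣ d → p ≤ v), vonMangoldt d * (d : ℝ) ^ η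
        ≤ (m : ℝ) ^ η * (C * (v : ℝ) ^ η * ((N / m : ℕ) : ℝ)) := by gcongr
      _ ≤ (m : ℝ) ^ η * (C * (v : ℝ) ^ η * (N / m)) := by gcongr
      _ = _ := by ring
  have hT0 : 0 ≤ ∑ n ∈ A, (n : ℝ) ^ (-(1 - η)) := by positivity
  have h7 : (N : ℝ) * ∑ n ∈ A, (n : ℝ) ^ (-(1 - η)) ≤
      (v : ℝ) ^ η * (N * ∑ n ∈ A, (n : ℝ) ^ (-(1 - η))) :=
    le_mul_of_one_le_left (by positivity) hvη
  rw [h1]
  calc _ ≤ C * (v : ℝ) ^ η * N * ∑ n ∈ A, (n : ℝ) ^ (-(1 - η)) +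
        (v : ℝ) ^ η * (N * ∑ n ∈ A, (n : ℝ) ^ (-(1 - η))) :=
        add_le_add (h3.trans h4) (h2.trans h7)
    _ = _ := by ring

theorem adm_tsum {σ : ℝ} (hσ : 0 < σ) (z v L : ℕ) :
    ∑ n ∈ (Icc 1 L).filter (Adm z v), (n : ℝ) ^ (-σ) ≤
      ∏ p ∈ (Ioc z v).filter Nat.Prime, (1 - (p : ℝ) ^ (-σ))⁻¹ := by
  have h := EulerProduct.summable_and_hasSum_factoredNumbers_prod_filter_prime_geometric
    (f := pw σ hσ.ne') (by
      intro p hp
      have h1 : (pw σ hσ.ne') p = (p : ℝ) ^ (-σ) := rfl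
      rw [h1, Real.norm_of_nonneg (by positivity)]
      exact pow_lt_one' hσ hp) (Ioc z v)
  have h2 := h.2
  have e1 : (∏ p ∈ (Ioc z v) with p.Prime, (1 - (pw σ hσ.ne') p)⁻¹) =
      ∏ p ∈ (Ioc z v).filter Nat.Prime, (1 - (p : ℝ) ^ (-σ))⁻¹ := rfl
  rw [e1] at h2
  set S := (Icc 1 L).filter (Adm z v) with hS
  have hmem : ∀ n ∈ S, n ∈ Nat.factoredNumbers (Ioc z v) := by
    intro n hn
    rw [hS, mem_filter, mem_Icc] at hn
    rw [Nat.mem_factoredNumbers]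
    refine ⟨by omega, fun p hp => ?_⟩
    have hpp := Nat.prime_of_mem_primeFactorsList hp
    rw [mem_Ioc]
    exact hn.2 p hpp (Nat.dvd_of_mem_primeFactorsList hp)
  have h3 := sum_le_hasSum (S.attach.image (fun n => (⟨n.1, hmem n.1 n.2⟩ :
      Nat.factoredNumbers (Ioc z v))))
    (fun i _ => by
      have : (0 : ℝ) ≤ (i.1 : ℝ) ^ (-σ) := by positivity
      exact this) h2
  rw [sum_image (by
    intro a _ b _ hab
    have := congrArg Subtype.val hab
    exact Subtype.ext this)] at h3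
  refine le_trans (le_of_eq ?_) h3
  rw [← sum_attach]
  rfl

/-- The Euler product over `(z, v]`. -/
theorem euler_le2 : ∃ C : ℝ, 0 < C ∧ ∀ (η : ℝ) (z v : ℕ), 0 ≤ η → η ≤ 1 / 4 → 2 ≤ z → z ≤ v →
    ∏ p ∈ (Ioc z v).filter Nat.Prime, (1 - (p : ℝ) ^ (-(1 - η)))⁻¹ ≤
      C * (Real.log v / Real.log z) * Real.exp (4 * η * (v : ℝ) ^ η * (Real.log v + C)) := by
  obtain ⟨c₁, c₂, hc₁, hc₁₂, hV⟩ := cz_bounds
  obtain ⟨C, hC, h⟩ := euler_le
  have hc₂ : 0 < c₂ := hc₁.trans_le hc₁₂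
  refine ⟨max C (C * c₂), lt_max_of_lt_left hC, fun η z v hη0 hη1 hz hzv => ?_⟩
  have h1 := h η v hη0 hη1 (by omega)
  have hlz : 0 < Real.log z := Real.log_pos (by exact_mod_cast (by omega : 1 < z))
  have hlv : 0 < Real.log v := Real.log_pos (by exact_mod_cast (by omega : 1 < v))
  have e1 : Pz v = Pz z ∪ (Ioc z v).filter Nat.Prime := by
    unfold Pz
    rw [← filter_union]
    congr 1
    ext p
    simp only [mem_Ioc, mem_union]
    omega
  have e2 : Disjoint (Pz z) ((Ioc z v).filter Nat.Prime) := by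
    rw [Finset.disjoint_left]
    intro p hp hp2
    have h3 := (mem_Pz.1 hp).2
    rw [mem_filter, mem_Ioc] at hp2
    omega
  rw [e1, prod_union e2] at h1
  have h2 : Real.log z / c₂ ≤ ∏ p ∈ Pz z, (1 - (p : ℝ) ^ (-(1 - η)))⁻¹ := by
    have h3 := (hV z hz).2
    have h4 := V_pos z
    have h5 : Real.log z / c₂ ≤ (V z)⁻¹ := by
      rw [div_le_iff₀ hc₂, ← div_eq_inv_mul, le_div_iff₀ h4]
      linarith
    refine h5.trans ?_
    unfold V
    rw [← prod_inv_distrib]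
    apply prod_le_prod
    · intro p hp
      have := one_sub_inv_pos (mem_Pz.1 hp).1
      positivity
    · intro p hp
      have hpp := (mem_Pz.1 hp).1
      have h6 := pow_lt_one' (σ := 1 - η) (by linarith) hpp
      have h7 := one_sub_inv_pos hpp
      apply inv_anti₀ (by linarith)
      have h8 : 1 / (p : ℝ) ≤ (p : ℝ) ^ (-(1 - η)) := by
        have hp1 : (1 : ℝ) ≤ p := by exact_mod_cast hpp.one_lt.le
        rw [one_div, ← Real.rpow_neg_one]
        exact Real.rpow_le_rpow_of_exponent_le hp1 (by linarith)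
      linarith
  have hQ : 0 ≤ ∏ p ∈ (Ioc z v).filter Nat.Prime, (1 - (p : ℝ) ^ (-(1 - η)))⁻¹ := by
    apply prod_nonneg
    intro p hp
    have := pow_lt_one' (σ := 1 - η) (by linarith) (mem_filter.1 hp).2
    exact inv_nonneg.2 (by linarith)
  have h3 : Real.log z / c₂ * ∏ p ∈ (Ioc z v).filter Nat.Prime, (1 - (p : ℝ) ^ (-(1 - η)))⁻¹ ≤
      C * Real.log v * Real.exp (4 * η * (v : ℝ) ^ η * (Real.log v + C)) :=
    (mul_le_mul_of_nonneg_right h2 hQ).trans h1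
  have h4 : ∏ p ∈ (Ioc z v).filter Nat.Prime, (1 - (p : ℝ) ^ (-(1 - η)))⁻¹ ≤
      (C * Real.log v * Real.exp (4 * η * (v : ℝ) ^ η * (Real.log v + C))) /
        (Real.log z / c₂) := by
    rw [le_div_iff₀ (by positivity)]
    linarith
  refine h4.trans ?_
  have e3 : (C * Real.log v * Real.exp (4 * η * (v : ℝ) ^ η * (Real.log v + C))) /
        (Real.log z / c₂) = (C * c₂) * (Real.log v / Real.log z) *
          Real.exp (4 * η * (v : ℝ) ^ η * (Real.log v + C)) := by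
    field_simp
  rw [e3]
  have h5 : C * c₂ ≤ max C (C * c₂) := le_max_right _ _
  have h6 : C ≤ max C (C * c₂) := le_max_left _ _
  have h7 : 0 ≤ Real.log v / Real.log z := by positivity
  apply mul_le_mul
  · exact mul_le_mul_of_nonneg_right h5 h7
  · apply Real.exp_le_exp.mpr
    apply mul_le_mul_of_nonneg_left _ (by positivity)
    linarith
  · positivity
  · have : 0 < max C (C * c₂) := lt_max_of_lt_left hC
    positivity

/-- Counting the integers up to `N` with all prime factors in `(z, v]`. -/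
theorem adm_count : ∃ C : ℝ, 0 < C ∧ ∀ (η : ℝ) (z v N : ℕ), 0 ≤ η → η ≤ 1 / 4 → 2 ≤ z → z ≤ v →
    2 ≤ N →
    (((Icc 1 N).filter (Adm z v)).card : ℝ) ≤ Real.sqrt N +
      C * (N / Real.log N) * ((Real.sqrt N) ^ (-η) * (v : ℝ) ^ η *
        (Real.log v / Real.log z) * Real.exp (4 * η * (v : ℝ) ^ η * (Real.log v + C))) := by
  obtain ⟨C1, hC1, hlw⟩ := log_weight
  obtain ⟨C2, hC2, heu⟩ := euler_le2
  refine ⟨max C2 (C1 * C2), lt_max_of_lt_left hC2, fun η z v N hη0 hη1 hz hzv hN => ?_⟩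
  have hN2 : (2 : ℝ) ≤ N := by exact_mod_cast hN
  have hN0 : (0 : ℝ) < N := by linarith
  have hsN : 0 < Real.sqrt N := Real.sqrt_pos.2 hN0
  have hlN : 0 < Real.log N := Real.log_pos (by linarith)
  have hlz : 0 < Real.log z := Real.log_pos (by exact_mod_cast (by omega : 1 < z))
  have hlv : 0 < Real.log v := Real.log_pos (by exact_mod_cast (by omega : 1 < v))
  set A := (Icc 1 N).filter (Adm z v) with hA
  have h1 := hlw η z v N hη0 hη1 (by omega) (by omega)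
  have h2 := (adm_tsum (σ := 1 - η) (by linarith) z v N).trans (heu η z v hη0 hη1 hz hzv)
  rw [← hA] at h1 h2
  have h3 : (A.card : ℝ) ≤ Real.sqrt N + (Real.sqrt N) ^ (-η) * ∑ n ∈ A, (n : ℝ) ^ η := by
    have h4 : (A.card : ℝ) = ((A.filter (fun n : ℕ => (n : ℝ) ≤ Real.sqrt N)).card : ℝ) +
        ((A.filter (fun n : ℕ => ¬ (n : ℝ) ≤ Real.sqrt N)).card : ℝ) := by
      exact_mod_cast (card_filter_add_card_filter_not (s := A) (fun n : ℕ => (n : ℝ) ≤ Real.sqrt N)).symm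
    have h5 : ((A.filter (fun n : ℕ => (n : ℝ) ≤ Real.sqrt N)).card : ℝ) ≤ Real.sqrt N := by
      have h6 : A.filter (fun n : ℕ => (n : ℝ) ≤ Real.sqrt N) ⊆ Icc 1 ⌊Real.sqrt N⌋₊ := by
        intro n hn
        rw [mem_filter, hA, mem_filter, mem_Icc] at hn
        rw [mem_Icc]
        exact ⟨hn.1.1.1, Nat.le_floor hn.2⟩
      have h7 := card_le_card h6
      rw [Nat.card_Icc, Nat.add_sub_cancel] at h7
      calc ((A.filter (fun n : ℕ => (n : ℝ) ≤ Real.sqrt N)).card : ℝ) ≤ ⌊Real.sqrt N⌋₊ := by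
            exact_mod_cast h7
        _ ≤ _ := Nat.floor_le hsN.le
    have h6 : ((A.filter (fun n : ℕ => ¬ (n : ℝ) ≤ Real.sqrt N)).card : ℝ) ≤
        (Real.sqrt N) ^ (-η) * ∑ n ∈ A, (n : ℝ) ^ η := by
      calc ((A.filter (fun n : ℕ => ¬ (n : ℝ) ≤ Real.sqrt N)).card : ℝ)
          = ∑ n ∈ A.filter (fun n : ℕ => ¬ (n : ℝ) ≤ Real.sqrt N), (1 : ℝ) := by simp
        _ ≤ ∑ n ∈ A.filter (fun n : ℕ => ¬ (n : ℝ) ≤ Real.sqrt N),
              (Real.sqrt N) ^ (-η) * (n : ℝ) ^ η := by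
            apply sum_le_sum
            intro n hn
            rw [mem_filter] at hn
            have h8 : Real.sqrt N ≤ n := le_of_not_ge hn.2
            rw [Real.rpow_neg hsN.le, ← div_eq_inv_mul, one_le_div (by positivity)]
            exact Real.rpow_le_rpow hsN.le h8 hη0
        _ = (Real.sqrt N) ^ (-η) *
              ∑ n ∈ A.filter (fun n : ℕ => ¬ (n : ℝ) ≤ Real.sqrt N), (n : ℝ) ^ η := by
            rw [mul_sum]
        _ ≤ _ := by
            apply mul_le_mul_of_nonneg_left _ (by positivity)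
            apply sum_le_sum_of_subset_of_nonneg (filter_subset _ _)
            intro i _ _
            positivity
    rw [h4]
    exact add_le_add h5 h6
  refine h3.trans ?_
  apply add_le_add le_rfl
  have h4 : ∑ n ∈ A, (n : ℝ) ^ η ≤ (C1 * (v : ℝ) ^ η * N *
      (C2 * (Real.log v / Real.log z) * Real.exp (4 * η * (v : ℝ) ^ η * (Real.log v + C2)))) /
        Real.log N := by
    rw [le_div_iff₀ hlN]
    refine h1.trans ?_
    exact mul_le_mul_of_nonneg_left h2 (by positivity)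
  set M := max C2 (C1 * C2) with hM
  have hM1 : C2 ≤ M := le_max_left _ _
  have hM2 : C1 * C2 ≤ M := le_max_right _ _
  calc (Real.sqrt N) ^ (-η) * ∑ n ∈ A, (n : ℝ) ^ η
      ≤ (Real.sqrt N) ^ (-η) * ((C1 * (v : ℝ) ^ η * N *
      (C2 * (Real.log v / Real.log z) * Real.exp (4 * η * (v : ℝ) ^ η * (Real.log v + C2)))) /
        Real.log N) := by gcongr
    _ = (C1 * C2) * (N / Real.log N) * ((Real.sqrt N) ^ (-η) * (v : ℝ) ^ η *
        (Real.log v / Real.log z) * Real.exp (4 * η * (v : ℝ) ^ η * (Real.log v + C2))) := by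
        ring
    _ ≤ _ := by gcongr

end Pool.Agent.H76.TT
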