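import Mathlib
import Pool.Agent.H76.TT.Sm
import Pool.Graph.R_pool_sql_team_seeded_35f281b4.K7.H60.TL.RB

/-!
Residue classes modulo the primes up to `y` that leave few integers of `[1, N]`, `N ≤ y z`.
-/

set_option autoImplicit false

namespace Pool.Agent.H76.TT

open Finset Pool.Agent.H318R2.Cr Pool.Agent.H398R2.RK

open scoped Classical

/-- The size of the factor in `adm_count` for our choice of the exponent. -/
theorem G_bound (C : ℝ) (hC : 0 < C) (y N z w : ℕ) (v : ℝ) (hv : 1024 ≤ v) (hy : 2 ≤ y)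
    (hyN : y ≤ N) (hz : 2 ≤ z) (hw : 2 ≤ w) (hwv : Real.log w ≤ Real.log y / v)
    (hCv : C ≤ Real.log y / v) (hvy : v * Real.log v ≤ Real.log y / 2)
    (hsm : Real.log y / Real.log z ≤ Real.exp (v * Real.log v / 8)) :
    (Real.sqrt N) ^ (-(v * Real.log v / (2 * Real.log y))) *
      (w : ℝ) ^ (v * Real.log v / (2 * Real.log y)) *
        (Real.log w / Real.log z) * Real.exp (4 * (v * Real.log v / (2 * Real.log y)) *
          (w : ℝ) ^ (v * Real.log v / (2 * Real.log y)) * (Real.log w + C)) ≤ 1 := by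
  have hy2 : (2 : ℝ) ≤ y := by exact_mod_cast hy
  have hz2 : (2 : ℝ) ≤ z := by exact_mod_cast hz
  have hw2 : (2 : ℝ) ≤ w := by exact_mod_cast hw
  have hyN' : (y : ℝ) ≤ N := by exact_mod_cast hyN
  have hv0 : 0 < v := by linarith
  have hly : 0 < Real.log y := Real.log_pos (by linarith)
  have hlz : 0 < Real.log z := Real.log_pos (by linarith)
  have hlw : 0 < Real.log w := Real.log_pos (by linarith)
  have hlv : 0 < Real.log v := Real.log_pos (by linarith)
  set η : ℝ := v * Real.log v / (2 * Real.log y) with hη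
  have hη0 : 0 ≤ η := by positivity
  -- `w ^ η ≤ √v`
  have h1 : (w : ℝ) ^ η ≤ Real.sqrt v := by
    have h2 : (w : ℝ) ^ η = Real.exp (Real.log w * η) := Real.rpow_def_of_pos (by linarith) η
    have h3 : Real.sqrt v = Real.exp (Real.log v / 2) := by
      rw [Real.sqrt_eq_rpow, Real.rpow_def_of_pos hv0]; congr 1; ring
    rw [h2, h3]
    apply Real.exp_le_exp.mpr
    calc Real.log w * η ≤ Real.log y / v * η := mul_le_mul_of_nonneg_right hwv hη0
      _ = Real.log v / 2 := by rw [hη]; field_simp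
  have h4 : (Real.sqrt N) ^ (-η) ≤ Real.exp (-(v * Real.log v / 4)) := by
    have hN0 : (0 : ℝ) < N := by linarith
    rw [Real.rpow_def_of_pos (Real.sqrt_pos.2 hN0), Real.log_sqrt hN0.le]
    apply Real.exp_le_exp.mpr
    have h5 : Real.log y ≤ Real.log N := Real.log_le_log (by linarith) hyN'
    have h6 : Real.log y / 2 * η ≤ Real.log N / 2 * η :=
      mul_le_mul_of_nonneg_right (by linarith) hη0
    have h7 : Real.log y / 2 * η = v * Real.log v / 4 := by rw [hη]; field_simp; ring
    rw [h7] at h6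
    linarith
  have hsv : 0 < Real.sqrt v := Real.sqrt_pos.2 hv0
  have h5 : 4 * η * (w : ℝ) ^ η * (Real.log w + C) ≤ v * Real.log v / 8 := by
    have h6 : Real.log w + C ≤ 2 * (Real.log y / v) := by linarith
    have h7 : 4 * η * (w : ℝ) ^ η * (Real.log w + C) ≤
        4 * η * Real.sqrt v * (2 * (Real.log y / v)) := by
      apply mul_le_mul _ h6 (by linarith) (by positivity)
      exact mul_le_mul_of_nonneg_left h1 (by positivity)
    have h8 : 4 * η * Real.sqrt v * (2 * (Real.log y / v)) = 4 * (Real.sqrt v * Real.log v) := by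
      rw [hη]; field_simp
    have h9 : 32 * Real.sqrt v ≤ v := by
      have h10 : 32 ≤ Real.sqrt v := by
        apply Real.le_sqrt_of_sq_le; linarith
      have h11 := Real.mul_self_sqrt hv0.le
      nlinarith
    have h10 : 32 * Real.sqrt v * Real.log v ≤ v * Real.log v :=
      mul_le_mul_of_nonneg_right h9 hlv.le
    rw [h8] at h7
    linarith
  have h6 : Real.log w / Real.log z ≤ Real.log y / Real.log z / v := by
    rw [div_div, mul_comm (Real.log z) v, ← div_div]
    exact div_le_div_of_nonneg_right hwv hlz.le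
  have h7 : Real.sqrt v ≤ v := by
    rw [Real.sqrt_le_left hv0.le]
    nlinarith
  have hyz0 : 0 ≤ Real.log y / Real.log z := by positivity
  have h8 : (w : ℝ) ^ η * (Real.log w / Real.log z) ≤ Real.exp (v * Real.log v / 8) := by
    calc (w : ℝ) ^ η * (Real.log w / Real.log z) ≤ v * (Real.log y / Real.log z / v) := by
          apply mul_le_mul (h1.trans h7) h6 (by positivity) hv0.le
      _ = Real.log y / Real.log z := by field_simp
      _ ≤ _ := hsm
  calc (Real.sqrt N) ^ (-η) * (w : ℝ) ^ η * (Real.log w / Real.log z) *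
        Real.exp (4 * η * (w : ℝ) ^ η * (Real.log w + C))
      = (Real.sqrt N) ^ (-η) * ((w : ℝ) ^ η * (Real.log w / Real.log z)) *
        Real.exp (4 * η * (w : ℝ) ^ η * (Real.log w + C)) := by ring
    _ ≤ Real.exp (-(v * Real.log v / 4)) * Real.exp (v * Real.log v / 8) *
          Real.exp (v * Real.log v / 8) := by
        apply mul_le_mul
        · apply mul_le_mul h4 h8 (by positivity) (by positivity)
        · exact Real.exp_le_exp.mpr h5
        · positivity
        · positivity
    _ = 1 := by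
        rw [← Real.exp_add, ← Real.exp_add]
        rw [show -(v * Real.log v / 4) + v * Real.log v / 8 + v * Real.log v / 8 = 0 by ring]
        exact Real.exp_zero

/-- Choice of residue classes with few survivors. -/
theorem survT : ∃ C C' : ℝ, 0 < C ∧ 0 < C' ∧ ∀ (y N z : ℕ) (v : ℝ), 1024 ≤ v → 2 ≤ y →
    y ≤ N → 2 ≤ z → N ≤ y * z → Real.log z ≤ Real.log y / v → C' ≤ Real.log y / v →
    v * Real.log v ≤ Real.log y / 2 →
    Real.log y / Real.log z ≤ Real.exp (v * Real.log v / 8) →
    ∃ b : ℕ → ℕ,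
      (((Icc 1 N).filter (fun k => ∀ p : ℕ, p.Prime → p ≤ y → ¬ k ≡ b p [MOD p])).card : ℝ) ≤
      C * N * v * Real.log z / (Real.log y) ^ 2 := by
  obtain ⟨c₁, c₂, hc₁, hc₁₂, hV⟩ := cz_bounds
  obtain ⟨C, hC, hcount⟩ := adm_count
  have hc₂ : 0 < c₂ := hc₁.trans_le hc₁₂
  refine ⟨(12 + C) * (2 * (c₂ / c₁)), max C 2, by positivity, lt_max_of_lt_left hC,
    fun y N z v hv hy hyN hz hNyz hzv hCv hvy hsm => ?_⟩
  have hy2 : (2 : ℝ) ≤ y := by exact_mod_cast hy
  have hz2 : (2 : ℝ) ≤ z := by exact_mod_cast hz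
  have hyN' : (y : ℝ) ≤ N := by exact_mod_cast hyN
  have hv0 : 0 < v := by linarith
  have hN0 : (0 : ℝ) < N := by linarith
  have hly : 0 < Real.log y := Real.log_pos (by linarith)
  have hlz : 0 < Real.log z := Real.log_pos (by linarith)
  have hlv : 0 < Real.log v := Real.log_pos (by linarith)
  have hC2 : 2 ≤ Real.log y / v := (le_max_right _ _).trans hCv
  have hCC : C ≤ Real.log y / v := (le_max_left _ _).trans hCv
  set w : ℕ := ⌊Real.exp (Real.log y / v)⌋₊ with hw
  have hwle : (w : ℝ) ≤ Real.exp (Real.log y / v) := Nat.floor_le (Real.exp_pos _).le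
  have hwlt : Real.exp (Real.log y / v) < w + 1 := Nat.lt_floor_add_one _
  have hzw : z ≤ w := by
    apply Nat.le_floor
    rw [← Real.exp_log (by linarith : (0 : ℝ) < z)]
    exact Real.exp_le_exp.mpr hzv
  have hw2 : 2 ≤ w := hz.trans hzw
  have hw2' : (2 : ℝ) ≤ w := by exact_mod_cast hw2
  have hw0 : (0 : ℝ) < w := by linarith
  have hlw0 : 0 < Real.log w := Real.log_pos (by linarith)
  have hlw1 : Real.log w ≤ Real.log y / v := by
    rw [← Real.log_exp (Real.log y / v)]
    exact Real.log_le_log hw0 hwle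
  have hlw2 : Real.log y / (2 * v) ≤ Real.log w := by
    have h1 : Real.exp (Real.log y / v) ≤ (w : ℝ) ^ 2 := by nlinarith
    have h2 := Real.log_le_log (Real.exp_pos _) h1
    rw [Real.log_exp, Real.log_pow] at h2
    push_cast at h2
    have h3 : Real.log y / (2 * v) = Real.log y / v / 2 := by rw [div_div, mul_comm]
    linarith
  have hwy : w ≤ y := by
    have h1 : (w : ℝ) ≤ y := by
      refine hwle.trans ?_
      rw [← Real.exp_log (by linarith : (0 : ℝ) < y)]
      apply Real.exp_le_exp.mpr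
      rw [Real.log_exp]
      exact div_le_self hly.le (by linarith)
    exact_mod_cast h1
  set S : Finset ℕ := (Ioc z w).filter Nat.Prime with hS
  have hSp : ∀ p ∈ S, p.Prime := fun p hp => (mem_filter.1 hp).2
  have hSmem : ∀ p : ℕ, p.Prime → (p ∈ S ↔ z < p ∧ p ≤ w) := by
    intro p hp
    rw [hS, mem_filter, mem_Ioc]
    exact ⟨fun h => h.1, fun h => ⟨h, hp⟩⟩
  set R := (Icc 1 N).filter (fun k => ∀ p : ℕ, p.Prime → p ≤ y → p ∉ S → ¬ k ≡ 1 [MOD p]) with hR
  obtain ⟨b, hb, hbc⟩ := greedy_all S hSp R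
  obtain ⟨b', hb'1, hb'2⟩ : ∃ b' : ℕ → ℕ, (∀ p ∈ S, b' p = b p) ∧ (∀ p, p ∉ S → b' p = 1) :=
    ⟨fun p => if p ∈ S then b p else 1, fun p hp => if_pos hp, fun p hp => if_neg hp⟩
  refine ⟨b', ?_⟩
  have hsub1 : (Finset.Icc 1 N).filter (fun k => ∀ p : ℕ, p.Prime → p ≤ y →
      ¬ k ≡ b' p [MOD p]) ⊆
      R.filter (fun k => ∀ p ∈ S, ¬ k ≡ b p [MOD p]) := by
    intro k hk
    rw [mem_filter] at hk
    rw [mem_filter, hR, mem_filter]
    refine ⟨⟨hk.1, fun p hp hpy hpS => ?_⟩, fun p hpS => ?_⟩
    · have := hk.2 p hp hpy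
      rwa [hb'2 p hpS] at this
    · have hpp := hSp p hpS
      have hpy' : p ≤ y := ((hSmem p hpp).1 hpS).2.trans hwy
      have := hk.2 p hpp hpy'
      rwa [hb'1 p hpS] at this
  refine (Nat.cast_le.2 (card_le_card hsub1)).trans (hbc.trans ?_)
  have h2S : 2 ∉ S := by
    intro h
    have := ((hSmem 2 Nat.prime_two).1 h).1
    omega
  have hRsub : R ⊆ (((Icc 1 N).filter Nat.Prime) ∪ (Icc 1 N).filter (Adm z w)).image
      (· + 1) := by
    intro k hk
    rw [hR, mem_filter, mem_Icc] at hk
    obtain ⟨⟨hk1, hkL⟩, hk2⟩ := hk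
    have hk3 : k ≠ 1 := by
      rintro rfl
      exact hk2 2 Nat.prime_two hy h2S (Nat.ModEq.refl _)
    obtain ⟨m, rfl⟩ : ∃ m, k = m + 1 := ⟨k - 1, by omega⟩
    rw [mem_image]
    refine ⟨m, ?_, rfl⟩
    have hm1 : 1 ≤ m := by omega
    have hfac : ∀ p : ℕ, p.Prime → p ∣ m → (y < p ∨ p ∈ S) := by
      intro p hp hd
      by_contra hcon
      push Not at hcon
      refine hk2 p hp hcon.1 hcon.2 ?_
      have : m ≡ 0 [MOD p] := (Nat.modEq_zero_iff_dvd).2 hd
      simpa using this.add_right 1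
    rw [mem_union]
    by_cases hall : ∀ p : ℕ, p.Prime → p ∣ m → p ∈ S
    · right
      rw [mem_filter, mem_Icc]
      exact ⟨⟨hm1, by omega⟩, fun p hp hd => (hSmem p hp).1 (hall p hp hd)⟩
    · left
      push Not at hall
      obtain ⟨p, hp, hd, hlp⟩ := hall
      have hpy : y < p := by
        rcases hfac p hp hd with h | h
        · exact h
        · exact absurd h hlp
      obtain ⟨m', rfl⟩ := hd
      have hm'1 : m' = 1 := by
        by_contra hne
        have hm'0 : m' ≠ 0 := by rintro rfl; simp at hm1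
        obtain ⟨q, hq, hqd⟩ := Nat.exists_prime_and_dvd hne
        have hqle : q ≤ m' := Nat.le_of_dvd (Nat.pos_of_ne_zero hm'0) hqd
        have hm'le : m' < z := by
          have h7 : p * m' ≤ y * z := le_trans (by omega) hNyz
          by_contra hcc
          push Not at hcc
          have h8 : y * z < p * m' := by
            calc y * z ≤ y * m' := Nat.mul_le_mul_left _ hcc
              _ < p * m' := Nat.mul_lt_mul_of_pos_right hpy (Nat.pos_of_ne_zero hm'0)
          omega
        rcases hfac q hq (hqd.mul_left p) with h | h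
        · have : z ≤ y := hzw.trans hwy
          omega
        · have := ((hSmem q hq).1 h).1
          omega
      rw [hm'1, mul_one, mem_filter, mem_Icc]
      rw [hm'1, mul_one] at hkL
      exact ⟨⟨hp.pos, by omega⟩, hp⟩
  have hlN : Real.log y ≤ Real.log N := Real.log_le_log (by linarith) hyN'
  have hRcard : (R.card : ℝ) ≤ (12 + C) * (N / Real.log y) := by
    have h7 : R.card ≤ ((Icc 1 N).filter Nat.Prime).card + ((Icc 1 N).filter (Adm z w)).card :=
      (card_le_card hRsub).trans (card_image_le.trans (card_union_le _ _))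
    have h8 : (R.card : ℝ) ≤ (((Icc 1 N).filter Nat.Prime).card : ℝ) +
        (((Icc 1 N).filter (Adm z w)).card : ℝ) := by
      exact_mod_cast h7
    have h9 := primes_le N (by omega)
    have hη0 : 0 ≤ v * Real.log v / (2 * Real.log y) := by positivity
    have hη1 : v * Real.log v / (2 * Real.log y) ≤ 1 / 4 := by
      rw [div_le_div_iff₀ (by positivity) (by norm_num)]
      linarith
    have h10 := hcount (v * Real.log v / (2 * Real.log y)) z w N hη0 hη1 hz hzw (by omega)
    have h11 := G_bound C hC y N z w v hv hy hyN hz hw2 hlw1 hCC hvy hsm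
    have h12 : 0 ≤ C * (N / Real.log N) := by
      have : 0 < Real.log N := by linarith
      positivity
    have h13 := mul_le_mul_of_nonneg_left h11 h12
    have h14 : (N : ℝ) / Real.log N ≤ N / Real.log y :=
      div_le_div_of_nonneg_left hN0.le hly hlN
    have h15 : 10 * (N : ℝ) / Real.log N ≤ 10 * (N / Real.log y) := by
      rw [mul_div_assoc]; linarith
    have h16 : Real.sqrt N ≤ 2 * (N / Real.log y) := by
      have h17 : Real.log y ≤ 2 * Real.sqrt N := by
        have h18 : Real.log (Real.sqrt N) ≤ Real.sqrt N := Real.log_le_self (Real.sqrt_nonneg _)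
        rw [Real.log_sqrt hN0.le] at h18
        linarith
      rw [← mul_div_assoc, le_div_iff₀ hly]
      have h18 := Real.mul_self_sqrt hN0.le
      have h19 := mul_le_mul_of_nonneg_left h17 (Real.sqrt_nonneg N)
      linarith
    have h17 : C * (N / Real.log N) ≤ C * (N / Real.log y) := mul_le_mul_of_nonneg_left h14 hC.le
    rw [mul_one] at h13
    linarith
  have hSprod0 : 0 ≤ ∏ p ∈ S, (1 - 1 / (p : ℝ)) :=
    prod_nonneg fun p hp => (one_sub_inv_pos (hSp p hp)).le
  have hPv : V w = V z * ∏ p ∈ S, (1 - 1 / (p : ℝ)) := by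
    have e1 : Pz w = Pz z ∪ S := by
      ext p
      rw [mem_union, mem_Pz, mem_Pz]
      constructor
      · rintro ⟨hp, hpw⟩
        by_cases h : p ≤ z
        · exact Or.inl ⟨hp, h⟩
        · exact Or.inr ((hSmem p hp).2 ⟨by omega, hpw⟩)
      · rintro (⟨hp, hpz⟩ | h)
        · exact ⟨hp, hpz.trans hzw⟩
        · have := (hSmem p (hSp p h)).1 h
          exact ⟨hSp p h, this.2⟩
    have e2 : Disjoint (Pz z) S := by
      rw [Finset.disjoint_left]
      intro p hp hpS
      have h9 := (mem_Pz.1 hp).2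
      have := ((hSmem p (hSp p hpS)).1 hpS).1
      omega
    unfold V
    rw [e1, prod_union e2]
  have hSprod : ∏ p ∈ S, (1 - 1 / (p : ℝ)) ≤ 2 * (c₂ / c₁) * (v * Real.log z / Real.log y) := by
    have h7 := (hV w hw2).2
    have h8 := (hV z hz).1
    rw [hPv] at h7
    have hVz := V_pos z
    have h9 : c₁ * (∏ p ∈ S, (1 - 1 / (p : ℝ))) * (Real.log y / (2 * v)) ≤ c₂ * Real.log z := by
      calc c₁ * (∏ p ∈ S, (1 - 1 / (p : ℝ))) * (Real.log y / (2 * v))
          ≤ (V z * Real.log z) * (∏ p ∈ S, (1 - 1 / (p : ℝ))) * Real.log w := by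
            gcongr
        _ = (V z * (∏ p ∈ S, (1 - 1 / (p : ℝ))) * Real.log w) * Real.log z := by ring
        _ ≤ c₂ * Real.log z := by gcongr
    have h10 : ∏ p ∈ S, (1 - 1 / (p : ℝ)) ≤ c₂ * Real.log z / (c₁ * (Real.log y / (2 * v))) := by
      rw [le_div_iff₀ (by positivity)]
      linarith
    refine h10.trans (le_of_eq ?_)
    field_simp
  calc (R.card : ℝ) * ∏ p ∈ S, (1 - 1 / (p : ℝ))
      ≤ ((12 + C) * (N / Real.log y)) * (2 * (c₂ / c₁) * (v * Real.log z / Real.log y)) := by
        gcongr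
    _ = _ := by
        field_simp

end Pool.Agent.H76.TT
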