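import Mathlib
import Pool.Agent.H76.TT.Sv

/-!
Runs of composite numbers in almost all intervals of length `exp (log X / E)`, uniformly in `E`.
-/

set_option autoImplicit false
set_option maxHeartbeats 4000000

namespace Pool.Agent.H76.TT

open Finset Filter Pool.Agent.H256R2.SC Pool.Agent.K7.H60.TL

open scoped Classical

/-- The quotient `log (2 + log ρ) / log (2 ρ)`. -/
theorem ab_bounds (ρ : ℝ) (hρ : 1 ≤ ρ) : Real.log 2 ≤ Real.log (2 * ρ) ∧
    Real.log 2 ≤ Real.log (2 + Real.log ρ) ∧
    Real.log (2 + Real.log ρ) ≤ 2 * Real.log (2 * ρ) ∧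
    Real.log (2 + Real.log ρ) ≤ 11 / 10 + Real.log (Real.log (2 * ρ)) := by
  have h2 := Real.log_two_gt_d9
  have h2' := Real.log_two_lt_d9
  have hl : 0 ≤ Real.log ρ := Real.log_nonneg hρ
  have e : Real.log (2 * ρ) = Real.log 2 + Real.log ρ := Real.log_mul (by norm_num) (by linarith)
  set a := Real.log (2 * ρ) with ha
  have ha1 : Real.log 2 ≤ a := by linarith
  have h3 : 2 + Real.log ρ ≤ 3 * a := by linarith
  refine ⟨ha1, Real.log_le_log (by norm_num) (by linarith), ?_, ?_⟩
  · have h4 : Real.log (2 + Real.log ρ) ≤ 2 + Real.log ρ - 1 :=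
      Real.log_le_sub_one_of_pos (by linarith)
    linarith
  · have h5 : Real.log (2 + Real.log ρ) ≤ Real.log (3 * a) := Real.log_le_log (by linarith) h3
    rw [Real.log_mul (by norm_num) (by linarith)] at h5
    have h6 : Real.log 3 ≤ 11 / 10 := by
      rw [Real.log_le_iff_le_exp (by norm_num)]
      have h7 : (2718 / 1000 : ℝ) ≤ Real.exp 1 := by have := Real.exp_one_gt_d9; linarith
      have h8 : Real.exp (11 / 10) = Real.exp 1 * Real.exp (1 / 10) := by
        rw [← Real.exp_add]; norm_num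
      have h9 : (1 : ℝ) + 1 / 10 + (1 / 10) ^ 2 / 2 ≤ Real.exp (1 / 10) :=
        Real.quadratic_le_exp_of_nonneg (by norm_num)
      rw [h8]
      have h10 : (2718 / 1000 : ℝ) * (1 + 1 / 10 + (1 / 10) ^ 2 / 2) ≤
          Real.exp 1 * Real.exp (1 / 10) := mul_le_mul h7 h9 (by norm_num) (Real.exp_pos _).le
      norm_num at h10 ⊢
      linarith
    linarith

/-- Our choice of `v`. -/
theorem v_bounds (ρ : ℝ) (hρ : 1 ≤ ρ) (v : ℝ)
    (hv : v = 2048 * (Real.log (2 * ρ) / Real.log (2 + Real.log ρ))) :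
    1024 ≤ v ∧ 8 * Real.log (2 * ρ) ≤ v * Real.log v ∧ v ≤ 4096 * Real.log (2 * ρ) := by
  obtain ⟨h1, h2, h3, h4⟩ := ab_bounds ρ hρ
  have hl2 := Real.log_two_gt_d9
  have hl2' := Real.log_two_lt_d9
  set a := Real.log (2 * ρ) with ha
  set b := Real.log (2 + Real.log ρ) with hb
  have ha0 : 0 < a := by linarith
  have hb0 : 0 < b := by linarith
  have h5 : (1 : ℝ) / 2 ≤ a / b := by rw [div_le_div_iff₀ (by norm_num) hb0]; linarith
  have hv1 : 1024 ≤ v := by rw [hv]; linarith
  refine ⟨hv1, ?_, ?_⟩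
  · have h6 : Real.log v = Real.log 2048 + (Real.log a - Real.log b) := by
      rw [hv, Real.log_mul (by norm_num) (by positivity), Real.log_div ha0.ne' hb0.ne']
    have h7 : Real.log b ≤ b / 2 := by
      have h8 : Real.log (b / 2) ≤ b / 2 - 1 := Real.log_le_sub_one_of_pos (by positivity)
      rw [Real.log_div hb0.ne' (by norm_num)] at h8
      linarith
    have h8 : 11 / 10 ≤ Real.log 2048 := by
      rw [show (2048 : ℝ) = 2 ^ 11 by norm_num, Real.log_pow]
      push_cast; linarith
    have h9 : b / 2 ≤ Real.log v := by rw [h6]; linarith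
    have h10 : v * (b / 2) = 1024 * a := by rw [hv]; field_simp; norm_num
    have h11 : v * (b / 2) ≤ v * Real.log v := mul_le_mul_of_nonneg_left h9 (by linarith)
    linarith
  · rw [hv]
    have h6 : a / b ≤ 2 * a := by
      rw [div_le_iff₀ hb0]; nlinarith
    linarith

theorem evM (δ c₁ C' M : ℝ) (hδ1 : δ < 1) (hc₁ : 0 < c₁) : ∃ l₀ : ℝ, ∀ l : ℝ, l₀ ≤ l →
    64 ≤ l ∧ 64 * l + 64 ≤ Real.exp ((1 - δ) * l) ∧ 24 ≤ c₁ * l ∧
    (4096 * Real.log (2 * l)) ^ 2 ≤ l / 4 ∧ C' * (4096 * Real.log (2 * l)) ≤ l / 2 ∧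
    M * l ≤ Real.exp ((1 - δ) / 2 * l) ∧ 3 ≤ (1 - δ) / 2 * l ∧ 1 ≤ Real.log l := by
  have hδ0 : 0 < 1 - δ := by linarith
  have g1 : ∀ᶠ l : ℝ in atTop, 64 * l + 64 ≤ Real.exp ((1 - δ) * l) := by
    have h := (isLittleO_pow_exp_pos_mul_atTop 1 (b := 1 - δ) hδ0).bound
      (show (0 : ℝ) < 1 / 128 by norm_num)
    filter_upwards [h, eventually_ge_atTop (1 : ℝ)] with l hl hl1
    rw [Real.norm_of_nonneg (by positivity), Real.norm_of_nonneg (Real.exp_pos _).le, pow_one]
      at hl
    linarith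
  have g2 : ∀ᶠ l : ℝ in atTop, M * l ≤ Real.exp ((1 - δ) / 2 * l) := by
    have h := (isLittleO_pow_exp_pos_mul_atTop 1 (b := (1 - δ) / 2) (by linarith)).bound
      (show (0 : ℝ) < 1 / (|M| + 1) by positivity)
    filter_upwards [h, eventually_ge_atTop (1 : ℝ)] with l hl hl1
    rw [Real.norm_of_nonneg (by positivity), Real.norm_of_nonneg (Real.exp_pos _).le, pow_one,
      div_mul_eq_mul_div, one_mul, le_div_iff₀ (by positivity)] at hl
    have h2 : M * l ≤ (|M| + 1) * l :=
      mul_le_mul_of_nonneg_right (by linarith [le_abs_self M]) (by linarith)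
    linarith
  have g3 : ∀ᶠ l : ℝ in atTop, (4096 * Real.log (2 * l)) ^ 2 ≤ l / 4 := by
    filter_upwards [ev_log_rpow 16384 (1 / 2) (by norm_num), eventually_ge_atTop (2 : ℝ)]
      with l hl hl1
    have h1 : Real.log (2 * l) ≤ 2 * Real.log l := by
      rw [Real.log_mul (by norm_num) (by linarith)]
      have := Real.log_le_log (by norm_num) hl1
      linarith
    have h0 : 0 ≤ Real.log (2 * l) := Real.log_nonneg (by linarith)
    have h3 : 4096 * Real.log (2 * l) ≤ l ^ (1 / 2 : ℝ) / 2 := by linarith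
    have h4 := pow_le_pow_left₀ (by positivity) h3 2
    have h5 : (l ^ (1 / 2 : ℝ) / 2) ^ 2 = l / 4 := by
      rw [div_pow, ← Real.rpow_natCast, ← Real.rpow_mul (by linarith)]
      norm_num
    rwa [h5] at h4
  have g4 : ∀ᶠ l : ℝ in atTop, C' * (4096 * Real.log (2 * l)) ≤ l / 2 := by
    filter_upwards [ev_log_rpow (2 * (|C'| * 8192)) 1 (by norm_num), eventually_ge_atTop (2 : ℝ)]
      with l hl hl1
    have h1 : Real.log (2 * l) ≤ 2 * Real.log l := by
      rw [Real.log_mul (by norm_num) (by linarith)]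
      have := Real.log_le_log (by norm_num) hl1
      linarith
    have h0 : 0 ≤ Real.log (2 * l) := Real.log_nonneg (by linarith)
    rw [Real.rpow_one] at hl
    have h2 : C' * (4096 * Real.log (2 * l)) ≤ |C'| * (4096 * (2 * Real.log l)) := by
      apply mul_le_mul (le_abs_self _) (by linarith) (by positivity) (abs_nonneg _)
    linarith
  have g5 : ∀ᶠ l : ℝ in atTop, 24 ≤ c₁ * l :=
    (tendsto_id.const_mul_atTop hc₁).eventually_ge_atTop 24
  have g6 : ∀ᶠ l : ℝ in atTop, 3 ≤ (1 - δ) / 2 * l :=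
    (tendsto_id.const_mul_atTop (by linarith : 0 < (1 - δ) / 2)).eventually_ge_atTop 3
  have g7 := Real.tendsto_log_atTop.eventually_ge_atTop 1
  exact eventually_atTop.1 ((eventually_ge_atTop 64).and (g1.and (g5.and (g3.and (g4.and
    (g2.and (g6.and g7)))))))

theorem exK1 : ∃ K1 : ℝ, 4 ≤ K1 ∧ ∀ ρ : ℝ, K1 ≤ ρ → 32768 * Real.log (2 * ρ) ≤ ρ := by
  have h : ∀ᶠ ρ : ℝ in atTop, 32768 * Real.log (2 * ρ) ≤ ρ := by
    filter_upwards [ev_log_rpow (32768 * 2) 1 (by norm_num), eventually_ge_atTop (2 : ℝ)]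
      with l hl hl1
    have h1 : Real.log (2 * l) ≤ 2 * Real.log l := by
      rw [Real.log_mul (by norm_num) (by linarith)]
      have := Real.log_le_log (by norm_num) hl1
      linarith
    rw [Real.rpow_one] at hl
    linarith
  obtain ⟨K, hK⟩ := eventually_atTop.1 h
  exact ⟨max K 4, le_max_right _ _, fun ρ hρ => hK ρ ((le_max_left _ _).trans hρ)⟩

/-- The length of the runs. -/
noncomputable def F (X E : ℝ) : ℝ :=
  Real.log X * (Real.log (Real.log X)) ^ 2 *
    Real.log (2 + Real.log (Real.log (Real.log X) / Real.log E)) /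
      (Real.log E * Real.log (2 * (Real.log (Real.log X) / Real.log E)))

theorem trade (A : ℕ) (δ : ℝ) (hδ : 0 < δ) (hδ1 : δ < 1) : ∃ c : ℝ, 0 < c ∧
    ∃ X₀ : ℝ, ∀ X : ℕ, X₀ ≤ X → ∀ E : ℝ, Real.log (Real.log X) ≤ E → E ≤ (Real.log X) ^ δ →
      (((Ico X (2 * X)).filter (fun x : ℕ => ¬ ∃ n m : ℕ, x < n ∧
        (m : ℝ) ≤ x + Real.exp (Real.log X / E) ∧ c * F X E ≤ (m : ℝ) - n ∧
        ∀ k ∈ Icc n m, ¬ k.Prime)).card : ℝ) ≤ X / (Real.log X) ^ A := by
  obtain ⟨c, C5, C6, hc, hC5, hC6, X₀, hX₀⟩ := runs ((1 - δ) / 2) (by linarith) A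
  obtain ⟨CM, hCM, hmert⟩ := Pool.Agent.H256R2.SC.G3.mertens_prod
  obtain ⟨C, C', hC, hC', hsurv⟩ := survT
  obtain ⟨K1, hK14, hK1⟩ := exK1
  set c₁ : ℝ := min (1 / 2) (min (c / (32768 * C)) (c * (1 - δ) / (4 * K1 * Real.exp CM))) with hc₁
  have hδ0 : 0 < 1 - δ := by linarith
  have hc₁0 : 0 < c₁ := by
    rw [hc₁]
    have : 0 < K1 := by linarith
    exact lt_min (by norm_num) (lt_min (by positivity) (by positivity))
  have hc₁1 : c₁ ≤ 1 / 2 := min_le_left _ _
  have hc₁2 : c₁ ≤ c / (32768 * C) := (min_le_right _ _).trans (min_le_left _ _)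
  have hc₁3 : c₁ ≤ c * (1 - δ) / (4 * K1 * Real.exp CM) :=
    (min_le_right _ _).trans (min_le_right _ _)
  set M : ℝ := max (max C6 (8 * C5)) 1 with hM
  have hM1 : 1 ≤ M := le_max_right _ _
  have hM6 : C6 ≤ M := (le_max_left _ _).trans (le_max_left _ _)
  have hM5 : 8 * C5 ≤ M := (le_max_right _ _).trans (le_max_left _ _)
  obtain ⟨l₀, hl₀⟩ := evM δ c₁ C' M hδ1 hc₁0
  refine ⟨c₁ / 2, by positivity, max X₀ (Real.exp (Real.exp l₀)), ?_⟩
  intro X hX E hE1 hE2
  have hX1 : X₀ ≤ X := (le_max_left _ _).trans hX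
  have hX2 : Real.exp (Real.exp l₀) ≤ X := (le_max_right _ _).trans hX
  have hXpos : (0 : ℝ) < X := (Real.exp_pos _).trans_le hX2
  unfold F
  set L : ℝ := Real.log X with hL
  have hXL : (X : ℝ) = Real.exp L := (Real.exp_log hXpos).symm
  have hLL : Real.exp l₀ ≤ L := by
    rw [hL, ← Real.log_exp (Real.exp l₀)]
    exact Real.log_le_log (Real.exp_pos _) hX2
  have hLpos : 0 < L := (Real.exp_pos _).trans_le hLL
  set l : ℝ := Real.log L with hl
  have hLl : L = Real.exp l := (Real.exp_log hLpos).symm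
  have hll : l₀ ≤ l := by
    rw [hl, ← Real.log_exp l₀]
    exact Real.log_le_log (Real.exp_pos _) hLL
  obtain ⟨f1, f2, f3, f4, f5, f6, f7, f8⟩ := hl₀ l hll
  have hl0 : 0 < l := by linarith
  have hE0 : 0 < E := by linarith
  have hlL : l ≤ L := by
    have := Real.add_one_le_exp l
    linarith
  -- e = log E
  set e : ℝ := Real.log E with he
  have he1 : 1 ≤ e := f8.trans (Real.log_le_log hl0 hE1)
  have he0 : 0 < e := by linarith
  have heδ : e ≤ δ * l := by
    have h1 := Real.log_le_log hE0 hE2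
    rwa [Real.log_rpow hLpos] at h1
  have hel : e ≤ l := heδ.trans (mul_le_of_le_one_left hl0.le hδ1.le)
  set ρ : ℝ := l / e with hρ
  have hρ1 : 1 ≤ ρ := by rw [hρ, one_le_div he0]; exact hel
  have hρl : ρ ≤ l := div_le_self hl0.le he1
  have hρe : ρ * e = l := by rw [hρ]; field_simp
  obtain ⟨hab1, hab2, hab3, hab4⟩ := ab_bounds ρ hρ1
  obtain ⟨v, hv⟩ : ∃ v : ℝ, v = 2048 * (Real.log (2 * ρ) / Real.log (2 + Real.log ρ)) := ⟨_, rfl⟩
  obtain ⟨hv1, hv2, hv3⟩ := v_bounds ρ hρ1 v hv
  have hl2 := Real.log_two_gt_d9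
  have hl2' := Real.log_two_lt_d9
  have haρ : Real.log (2 * ρ) ≤ 2 * ρ := Real.log_le_self (by linarith)
  have haexp : Real.exp (Real.log (2 * ρ)) = 2 * ρ := Real.exp_log (by linarith)
  have hal : Real.log (2 * ρ) ≤ Real.log (2 * l) := Real.log_le_log (by linarith) (by linarith)
  set a := Real.log (2 * ρ) with ha
  set b := Real.log (2 + Real.log ρ) with hb
  have ha0 : 0 < a := by linarith
  have hb0 : 0 < b := by linarith
  -- D = L / E
  set D : ℝ := L / E with hD
  have hDlow : Real.exp ((1 - δ) * l) ≤ D := by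
    rw [hD, le_div_iff₀ hE0]
    have h1 : L ^ δ = Real.exp (δ * l) := by rw [hLl, ← Real.exp_mul]; congr 1; ring
    calc Real.exp ((1 - δ) * l) * E ≤ Real.exp ((1 - δ) * l) * L ^ δ :=
          mul_le_mul_of_nonneg_left hE2 (Real.exp_pos _).le
      _ = L := by rw [h1, ← Real.exp_add, hLl]; congr 1; ring
  have hD1 : 64 * l + 64 ≤ D := f2.trans hDlow
  have hD0 : 0 < D := by linarith
  have hDE : D * E = L := by rw [hD]; field_simp
  have hDL : D ≤ L / 2 := by
    rw [hD]; exact div_le_div_of_nonneg_left hLpos.le (by norm_num) (by linarith)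
  have hlogD : Real.log D = l - e := by rw [hD, Real.log_div hLpos.ne' hE0.ne']
  set y : ℕ := ⌊D / 8⌋₊ with hy
  have hy1 : (y : ℝ) ≤ D / 8 := Nat.floor_le (by positivity)
  have hy2 : D / 8 < y + 1 := Nat.lt_floor_add_one _
  have hy3 : D / 16 ≤ y := by linarith
  have hyL : (y : ℝ) ≤ L := by linarith
  have hy4 : (4 : ℝ) ≤ y := by linarith
  have hy4' : 4 ≤ y := by exact_mod_cast hy4
  have hlog16 : Real.log 16 ≤ 3 := by
    rw [show (16 : ℝ) = 2 ^ 4 by norm_num, Real.log_pow]; push_cast; linarith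
  have hlogy1 : l - e - 3 ≤ Real.log y := by
    have h1 : Real.log (D / 16) ≤ Real.log y := Real.log_le_log (by positivity) hy3
    rw [Real.log_div hD0.ne' (by norm_num), hlogD] at h1
    linarith
  have hlogy2 : (1 - δ) / 2 * l ≤ Real.log y := by linarith
  have hlogy3 : Real.log y ≤ l := Real.log_le_log (by linarith) hyL
  have hlogy0 : 0 < Real.log y := Real.log_pos (by linarith)
  -- F
  set F0 : ℝ := L * l ^ 2 * b / (e * a) with hF0
  have hFe : F0 = L * l * (ρ * (b / a)) := by
    rw [hF0, hρ]; field_simp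
  have hba : b / a ≤ 2 := by rw [div_le_iff₀ ha0]; linarith
  have hba2 : 1 / 3 ≤ ρ * (b / a) := by
    rw [← mul_div_assoc, div_le_div_iff₀ (by norm_num) ha0]
    have h1 : ρ * (69 / 100) ≤ ρ * b := mul_le_mul_of_nonneg_left (by linarith) (by linarith)
    linarith
  have hFlow : L * l / 3 ≤ F0 := by
    rw [hFe]
    have := mul_le_mul_of_nonneg_left hba2 (by positivity : 0 ≤ L * l)
    linarith
  have hFpos : 0 < F0 := lt_of_lt_of_le (by positivity) hFlow
  have hFup : F0 ≤ 2 * (L * l ^ 2) := by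
    rw [hFe]
    calc L * l * (ρ * (b / a)) ≤ L * l * (l * 2) := by
          apply mul_le_mul_of_nonneg_left _ (by positivity)
          exact mul_le_mul hρl hba (by positivity) hl0.le
      _ = _ := by ring
  set N : ℕ := ⌊c₁ * F0⌋₊ with hN
  have hN1 : (N : ℝ) ≤ c₁ * F0 := Nat.floor_le (by positivity)
  have hN2 : c₁ * F0 < N + 1 := Nat.lt_floor_add_one _
  have hNLl : (N : ℝ) ≤ L * l ^ 2 := by
    calc (N : ℝ) ≤ c₁ * F0 := hN1
      _ ≤ 1 / 2 * (2 * (L * l ^ 2)) := mul_le_mul hc₁1 hFup hFpos.le (by norm_num)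
      _ = L * l ^ 2 := by ring
  have hcF : 8 * L ≤ c₁ * F0 := by
    have h1 := mul_le_mul_of_nonneg_left hFlow hc₁0.le
    have h2 : c₁ * (L * l / 3) = (c₁ * l) * L / 3 := by ring
    have h3 : 24 * L ≤ (c₁ * l) * L := mul_le_mul_of_nonneg_right f3 hLpos.le
    linarith
  have hL64 : 64 ≤ L := f1.trans hlL
  have hyN : y ≤ N := by
    have : (y : ℝ) ≤ N := by linarith
    exact_mod_cast this
  set P0 : Finset ℕ := (Icc 1 y).filter Nat.Prime with hP0
  -- few survivors
  have hex : ∃ r : ℕ → ℕ,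
      (((Icc 1 N).filter (fun k => ∀ p ∈ P0, ¬ k ≡ r p [MOD p])).card : ℝ) ≤ c * L := by
    by_cases hreg : K1 ≤ ρ
    · -- regime 1
      have h32 := hK1 ρ hreg
      have he4 : 4 * e ≤ l := by
        rw [← hρe]
        exact mul_le_mul_of_nonneg_right (hK14.trans hreg) he0.le
      have hly : l / 2 ≤ Real.log y := by linarith
      set z : ℕ := ⌊E ^ 4⌋₊ with hz
      have hE64 : 64 ≤ E := f1.trans hE1
      have hE4 : 2 * E ≤ E ^ 4 := by
        have h1 : 1 ≤ E ^ 2 := one_le_pow₀ (by linarith)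
        have h2 : E ^ 4 = E * E * E ^ 2 := by ring
        rw [h2]
        have h3 : 2 * E * 1 ≤ E * E * E ^ 2 :=
          mul_le_mul (mul_le_mul_of_nonneg_right (by linarith) hE0.le) h1 (by norm_num)
            (by positivity)
        linarith
      have hz1 : (z : ℝ) ≤ E ^ 4 := Nat.floor_le (by positivity)
      have hz2 : E ^ 4 < z + 1 := Nat.lt_floor_add_one _
      have hz3 : E ≤ z := by linarith
      have hz4 : E ^ 4 / 2 ≤ z := by linarith
      have hz2' : 2 ≤ z := by
        have : (2 : ℝ) ≤ z := by linarith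
        exact_mod_cast this
      have hlz1 : Real.log z ≤ 4 * e := by
        have h1 := Real.log_le_log (by linarith : (0 : ℝ) < z) hz1
        rw [Real.log_pow] at h1
        push_cast at h1
        exact h1
      have hlz2 : e ≤ Real.log z := Real.log_le_log hE0 hz3
      have hv0 : 0 < v := by linarith
      obtain ⟨r, hr⟩ := hsurv y N z v hv1 (by omega) hyN hz2'
        (by
          have h1 : (N : ℝ) ≤ (y : ℝ) * z := by
            calc (N : ℝ) ≤ L * l ^ 2 := hNLl
              _ ≤ D / 16 * (E ^ 4 / 2) := by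
                  have e1 : D / 16 * (E ^ 4 / 2) = (D * E) * E ^ 3 / 32 := by ring
                  rw [e1, hDE]
                  have h2 : l ^ 3 ≤ E ^ 3 := pow_le_pow_left₀ hl0.le hE1 3
                  have h3 : 32 * l ^ 2 ≤ l ^ 3 := by
                    have : l ^ 3 = l * l ^ 2 := by ring
                    rw [this]
                    exact mul_le_mul_of_nonneg_right (by linarith) (by positivity)
                  have h4 : L * (32 * l ^ 2) ≤ L * E ^ 3 :=
                    mul_le_mul_of_nonneg_left (h3.trans h2) hLpos.le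
                  linarith
              _ ≤ (y : ℝ) * z := mul_le_mul hy3 hz4 (by positivity) (by positivity)
          exact_mod_cast h1)
        (by
          rw [le_div_iff₀ hv0]
          have h1 : Real.log z * v ≤ (4 * e) * v := mul_le_mul_of_nonneg_right hlz1 hv0.le
          have h2 : 8 * v ≤ ρ := by linarith
          have h3 : 8 * v * e ≤ l := by
            rw [← hρe]; exact mul_le_mul_of_nonneg_right h2 he0.le
          linarith)
        (by
          rw [le_div_iff₀ hv0]
          have h1 : C' * v ≤ C' * (4096 * Real.log (2 * l)) :=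
            mul_le_mul_of_nonneg_left (by linarith) hC'.le
          linarith)
        (by
          have h1 : Real.log v ≤ v := Real.log_le_self hv0.le
          have h2 : v * Real.log v ≤ v ^ 2 := by
            rw [sq]; exact mul_le_mul_of_nonneg_left h1 hv0.le
          have h3 : v ^ 2 ≤ (4096 * Real.log (2 * l)) ^ 2 :=
            pow_le_pow_left₀ hv0.le (by linarith) 2
          linarith)
        (by
          have h1 : Real.log y / Real.log z ≤ l / e :=
            div_le_div₀ hl0.le hlogy3 he0 hlz2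
          have h2 : l / e ≤ Real.exp a := by rw [haexp, ← hρ]; linarith
          have h3 : Real.exp a ≤ Real.exp (v * Real.log v / 8) :=
            Real.exp_le_exp.mpr (by linarith)
          exact h1.trans (h2.trans h3))
      refine ⟨r, ?_⟩
      have h1 : (((Icc 1 N).filter (fun k => ∀ p ∈ P0, ¬ k ≡ r p [MOD p])).card : ℝ) ≤
          (((Icc 1 N).filter (fun k => ∀ p : ℕ, p.Prime → p ≤ y → ¬ k ≡ r p [MOD p])).card : ℝ) := by
        apply Nat.cast_le.mpr
        apply card_le_card
        intro k hk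
        have hk' := Finset.mem_filter.1 hk
        refine Finset.mem_filter.2 ⟨hk'.1, fun p hp hpy => hk'.2 p ?_⟩
        exact mem_filter.2 ⟨mem_Icc.2 ⟨hp.pos, hpy⟩, hp⟩
      refine h1.trans (hr.trans ?_)
      have h2 : C * N * v * Real.log z / (Real.log y) ^ 2 ≤
          C * (c₁ * F0) * v * (4 * e) / (l / 2) ^ 2 := by
        have hlz0 : 0 ≤ Real.log z := by linarith
        apply div_le_div₀ (by positivity) _ (by positivity) _
        · apply mul_le_mul _ hlz1 hlz0 (by positivity)
          apply mul_le_mul_of_nonneg_right _ hv0.le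
          exact mul_le_mul_of_nonneg_left hN1 hC.le
        · exact pow_le_pow_left₀ (by positivity) hly 2
      refine h2.trans ?_
      have h3 : C * (c₁ * F0) * v * (4 * e) / (l / 2) ^ 2 = c₁ * (32768 * C) * L := by
        rw [hF0, hv]; field_simp; ring
      rw [h3]
      apply mul_le_mul_of_nonneg_right _ hLpos.le
      calc c₁ * (32768 * C) ≤ c / (32768 * C) * (32768 * C) :=
            mul_le_mul_of_nonneg_right hc₁2 (by positivity)
        _ = c := by field_simp
    · -- regime 2
      push Not at hreg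
      obtain ⟨r, -, hr⟩ := greedy_all P0 (fun p hp => (mem_filter.1 hp).2) (Icc 1 N)
      refine ⟨r, hr.trans ?_⟩
      rw [Nat.card_Icc, Nat.add_sub_cancel]
      have hprod : ∏ p ∈ P0, (1 - 1 / (p : ℝ)) ≤ Real.exp CM / Real.log y := by
        have := hmert y (by omega) ∅ (by simp)
        simpa using this
      have hK10 : 0 < K1 := by linarith
      calc (N : ℝ) * ∏ p ∈ P0, (1 - 1 / (p : ℝ)) ≤
            (L * l * (K1 * 2)) * c₁ * (Real.exp CM / ((1 - δ) / 2 * l)) := by
            apply mul_le_mul _ _ _ (by positivity)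
            · refine hN1.trans ?_
              rw [mul_comm]
              apply mul_le_mul_of_nonneg_right _ hc₁0.le
              rw [hFe]
              apply mul_le_mul_of_nonneg_left _ (by positivity)
              exact mul_le_mul hreg.le hba (by positivity) hK10.le
            · refine hprod.trans ?_
              exact div_le_div_of_nonneg_left (Real.exp_pos _).le (by positivity) hlogy2
            · apply Finset.prod_nonneg
              intro p hp
              have h1 : (1 : ℝ) ≤ p := by exact_mod_cast (mem_filter.1 hp).2.one_lt.le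
              have : 1 / (p : ℝ) ≤ 1 := by rw [div_le_one (by linarith)]; exact h1
              linarith
        _ = c₁ * (4 * K1 * Real.exp CM / (1 - δ)) * L := by field_simp; ring
        _ ≤ (c * (1 - δ) / (4 * K1 * Real.exp CM)) * (4 * K1 * Real.exp CM / (1 - δ)) * L := by
            apply mul_le_mul_of_nonneg_right _ hLpos.le
            exact mul_le_mul_of_nonneg_right hc₁3 (by positivity)
        _ = c * L := by field_simp
  obtain ⟨r, hcard⟩ := hex
  set Y : ℕ := ⌊Real.exp D / 2⌋₊ with hY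
  have hY1 : (Y : ℝ) ≤ Real.exp D / 2 := Nat.floor_le (by positivity)
  have hYl : Real.exp D / 2 < Y + 1 := Nat.lt_floor_add_one _
  have hL4 : L ^ 4 = Real.exp (4 * l) := by
    rw [hLl, ← Real.exp_nat_mul]; push_cast; rfl
  have hN3 : (N : ℝ) + 1 ≤ L ^ 4 := by
    have h1 : L * l ^ 2 ≤ L * L ^ 2 :=
      mul_le_mul_of_nonneg_left (pow_le_pow_left₀ hl0.le hlL 2) hLpos.le
    have h2 : L * L ^ 2 = L ^ 3 := by ring
    have h3 : 64 * L ^ 3 ≤ L ^ 4 := by
      calc 64 * L ^ 3 ≤ L * L ^ 3 := mul_le_mul_of_nonneg_right hL64 (by positivity)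
        _ = L ^ 4 := by ring
    have h4 : 1 ≤ L ^ 3 := one_le_pow₀ (by linarith)
    linarith
  have hexp2 : Real.exp (D / 2) * 4 ≤ Real.exp D := by
    have h1 : Real.exp D = Real.exp (D / 2) * Real.exp (D / 2) := by
      rw [← Real.exp_add]; congr 1; ring
    have h2 : 4 ≤ Real.exp (D / 2) := by
      have := Real.add_one_le_exp (D / 2)
      linarith
    rw [h1]
    exact mul_le_mul_of_nonneg_left h2 (Real.exp_pos _).le
  have hexp1 : 1 ≤ Real.exp (D / 2) := Real.one_le_exp (by positivity)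
  have hmain := hX₀ X hX1 P0 r N Y (M * l * E)
    (by
      intro p hp
      have hp1 := (mem_filter.1 hp)
      refine ⟨hp1.2, ?_⟩
      have h1 : (p : ℝ) ≤ y := by exact_mod_cast (mem_Icc.1 hp1.1).2
      have h2 : (p : ℝ) < X := by
        have := Real.add_one_le_exp L
        rw [hXL]
        linarith
      exact_mod_cast h2)
    (by
      intro p hp
      have hp1 := (mem_filter.1 hp)
      have h1 : (p : ℝ) ≤ y := by exact_mod_cast (mem_Icc.1 hp1.1).2
      calc (p : ℝ) ≤ L := by linarith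
        _ ≤ L ^ (A + 10) := le_self_pow₀ (by linarith) (by omega))
    (hN3.trans (pow_le_pow_right₀ (by linarith) (by omega)))
    hcard
    (by
      calc C6 * l ≤ M * l := mul_le_mul_of_nonneg_right hM6 hl0.le
        _ ≤ M * l * E := le_mul_of_one_le_right (by positivity) (by linarith))
    (by
      have h1 : L ^ (1 - (1 - δ) / 2) = Real.exp ((1 - δ) / 2 * l) * Real.exp (δ * l) := by
        rw [hLl, ← Real.exp_mul, ← Real.exp_add]; congr 1; ring
      have h2 : L ^ δ = Real.exp (δ * l) := by rw [hLl, ← Real.exp_mul]; congr 1; ring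
      rw [h1, ← h2]
      exact mul_le_mul f6 hE2 hE0.le (Real.exp_pos _).le)
    (by
      have h1 : C5 * l * (L / (M * l * E)) = C5 / M * D := by
        rw [hD]
        field_simp
      rw [h1]
      have h1' : C5 / M * D ≤ D / 8 := by
        have h3 : C5 / M ≤ 1 / 8 := by
          rw [div_le_div_iff₀ (by linarith) (by norm_num)]; linarith
        have := mul_le_mul_of_nonneg_right h3 hD0.le
        linarith
      have h2 : ((∏ p ∈ P0, p : ℕ) : ℝ) ≤ Real.exp (D / 4) := by
        refine (primorial_prod y).trans (Real.exp_le_exp.mpr ?_)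
        linarith
      have h3 : (N : ℝ) + 1 ≤ Real.exp (4 * l) := by rw [← hL4]; exact hN3
      have h4 : Real.exp (D / 2) ≤ Y := by linarith
      refine le_trans ?_ h4
      calc ((∏ p ∈ P0, p : ℕ) : ℝ) * (N + 1) * Real.exp (C5 / M * D) ≤
            Real.exp (D / 4) * Real.exp (4 * l) * Real.exp (D / 8) := by
            apply mul_le_mul _ (Real.exp_le_exp.mpr h1') (Real.exp_pos _).le (by positivity)
            exact mul_le_mul h2 h3 (by positivity) (Real.exp_pos _).le
        _ = Real.exp (D / 4 + 4 * l + D / 8) := by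
            rw [← Real.exp_add, ← Real.exp_add]
        _ ≤ _ := Real.exp_le_exp.mpr (by linarith))
    (by
      have h1 : Real.exp D ≤ Real.exp (L / 2) := Real.exp_le_exp.mpr hDL
      have h2 := Real.exp_pos D
      linarith)
  refine le_trans ?_ hmain
  apply Nat.cast_le.mpr
  apply card_le_card
  intro x hx
  rw [mem_filter, mem_Ico] at hx
  rw [mem_filter, mem_Ico]
  refine ⟨hx.1, ?_⟩
  rintro ⟨n, hn1, hn2, hn3⟩
  apply hx.2
  refine ⟨n + 1, n + N, by omega, ?_, ?_, ?_⟩
  · have h1 : ((n + N : ℕ) : ℝ) ≤ x + Y + N := by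
      push_cast
      have : (n : ℝ) ≤ x + Y := by exact_mod_cast hn2
      linarith
    have h2 : (N : ℝ) ≤ Real.exp (D / 2) := by
      have h3 : (N : ℝ) + 1 ≤ Real.exp (4 * l) := by rw [← hL4]; exact hN3
      have h4 : Real.exp (4 * l) ≤ Real.exp (D / 2) := Real.exp_le_exp.mpr (by linarith)
      linarith
    linarith
  · push_cast
    linarith
  · intro k hk
    rw [mem_Icc] at hk
    have h1 := hn3 (k - n) (by rw [mem_Icc]; omega)
    rwa [show n + (k - n) = k by omega] at h1

end Pool.Agent.H76.TT
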